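import Mathlib
import Pool.Agent.TH888.C.Val
import Pool.Agent.Q43.PR.Pair

set_option autoImplicit false

/-!
# Curve families: pairs of levels
-/

namespace Pool.Agent.Q43.CV

open Finset Filter Topology MeasureTheory
open Pool.Agent.W66C
open Pool.Agent.H447R2.ML (Loc)
open Pool.Agent.TH888.R (wt wt_nonneg wt_le_one)
open Pool.Agent.H305R2 (roughPart NN ff measurable_ff measurable_NN ff_nonneg ff_le_one)

/-- distant pairs -/
lemma far_ff {a0 a1 D b0 b1 : ℝ} (ha0 : 0 < a0) (hD : 0 ≤ D) (h0 : a0 < b0) (h01 : b0 < b1)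
    (h1 : b1 < a1) : ∃ K : ℝ, 0 < K ∧ ∃ P : ℕ, ∀ p ≥ P, ∀ q : ℕ, 2 * p ≤ q →
    ∀ y y' z z' : ℝ → ℝ, Loc a0 a1 D p y y' → Loc a0 a1 D q z z' →
    ∫ t in Set.Ioc b0 b1, ff p (y t) * ff q (z t) ≤ K * (wt p * wt q) := by
  obtain ⟨K2, hK2, P2, h2⟩ := Pool.Agent.H447R2.ML.pair_bound (a0 := a0) (a1 := a1) (D := D) (b0 := b0)
    (b1 := b1) ha0 hD h0 h1
  have hpos : 0 < b1 - b0 := by linarith
  refine ⟨2 * ((b1 - b0) + 1) * K2, by positivity, ?_⟩
  have hgap : ∀ᶠ q : ℕ in atTop, 64 / a0 * (Real.log q * Real.log (Real.log q)) ≤ q / 2 := by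
    have h1 : ∀ᶠ x : ℝ in atTop, 64 / a0 * (Real.log x * Real.log (Real.log x)) ≤ x / 2 := by
      have h2 : ∀ᶠ x : ℝ in atTop, (Real.log x) ^ 2 ≤ 1 / (2 * (64 / a0)) * x := by
        have h3 := (Real.isLittleO_pow_log_id_atTop (n := 2)).bound
          (show (0 : ℝ) < 1 / (2 * (64 / a0)) by positivity)
        filter_upwards [h3, eventually_gt_atTop 0] with x hx hx0
        rw [Real.norm_eq_abs, Real.norm_eq_abs, abs_of_nonneg (by positivity)] at hx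
        simpa [abs_of_pos hx0] using hx
      filter_upwards [h2, Real.tendsto_log_atTop.eventually_ge_atTop 1, eventually_gt_atTop 0]
        with x hx hx1 hx0
      have h4 : Real.log (Real.log x) ≤ Real.log x := by
        have := Real.log_le_sub_one_of_pos (show 0 < Real.log x by linarith)
        linarith
      calc 64 / a0 * (Real.log x * Real.log (Real.log x)) ≤ 64 / a0 * (Real.log x * Real.log x) := by gcongr
        _ = 64 / a0 * (Real.log x) ^ 2 := by ring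
        _ ≤ 64 / a0 * (1 / (2 * (64 / a0)) * x) := by gcongr
        _ = x / 2 := by field_simp
    exact tendsto_natCast_atTop_atTop.eventually h1
  obtain ⟨P3, hP3⟩ := eventually_atTop.1 hgap
  refine ⟨P2 + P3 + 1, fun p hp q hpq y y' z z' hy hz => ?_⟩
  have hp1 : (1 : ℝ) ≤ p := by exact_mod_cast (by omega : 1 ≤ p)
  have hpq' : 2 * (p : ℝ) ≤ q := by exact_mod_cast hpq
  have h3 := h2 p q (by omega) (by omega) _ _ _ _ hy hz (by
    have := hP3 q (by omega)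
    linarith) b0 b1 le_rfl h01.le le_rfl
  have hwp := wt_nonneg p
  have hlq : 0 ≤ Real.log q := Real.log_natCast_nonneg q
  have hq0 : (0 : ℝ) < q := by linarith
  refine h3.trans ?_
  have h6 : (b1 - b0) + 1 / (p : ℝ) ≤ (b1 - b0) + 1 := by
    have : 1 / (p : ℝ) ≤ 1 := by rw [div_le_one (by linarith)]; exact hp1
    linarith
  have h7 : Real.log q / (q - p) ≤ 2 * wt q := by
    unfold wt
    calc Real.log q / (q - p) ≤ Real.log q / (q / 2) :=
          div_le_div_of_nonneg_left hlq (by positivity) (by linarith)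
      _ = _ := by field_simp
  have h8 : 0 ≤ Real.log q / (q - p) := div_nonneg hlq (by linarith)
  calc K2 * ((b1 - b0) + 1 / p) * (Real.log p / p) * (Real.log q / (q - p)) =
        K2 * ((b1 - b0) + 1 / p) * wt p * (Real.log q / (q - p)) := rfl
    _ ≤ K2 * ((b1 - b0) + 1) * wt p * (2 * wt q) := by gcongr
    _ = _ := by ring

/-- all pairs with different slopes -/
lemma pair_cur {a0 a1 D b0 b1 δ : ℝ} {h1 h2 : ℝ → ℝ} (ha0 : 0 < a0) (hD : 0 ≤ D) (h0 : a0 < b0)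
    (h01 : b0 < b1) (hb : b1 < a1) (hδ : 0 < δ) (hδ1 : δ ≤ 1) :
    ∃ K : ℝ, 0 < K ∧ ∃ P : ℕ, ∀ p ≥ P, ∀ q : ℕ, p ≤ q →
    ∀ y y' y'' z z' z'' : ℝ → ℝ, Cur a0 a1 D h1 p y y' y'' → Cur a0 a1 D h2 q z z' z'' →
    (∀ t ∈ Set.Icc a0 a1, δ ≤ z' t - y' t) →
    ∫ t in Set.Ioc b0 b1, ff p (y t) * ff q (z t) ≤ K * (wt p * wt q) := by
  obtain ⟨K1, hK1, P1, g1⟩ := far_ff ha0 hD h0 h01 hb
  obtain ⟨K2, hK2, P2, g2⟩ := near_c (h1 := h1) (h2 := h2) ha0 hD h0 h01 hb hδ hδ1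
  refine ⟨K1 + 2 * K2, by positivity, P1 + P2 + 3, fun p hp q hpq y y' y'' z z' z'' hy hz hd => ?_⟩
  have hwp := wt_nonneg p
  have hwq := wt_nonneg q
  have hww := mul_nonneg hwp hwq
  rcases le_total q (2 * p) with hq2 | hq2
  · have hp3 : (3 : ℝ) ≤ p := by exact_mod_cast (by omega : 3 ≤ p)
    have hp0 : (0 : ℝ) < p := by linarith
    have hpq' : (p : ℝ) ≤ q := by exact_mod_cast hpq
    have hq0 : (0 : ℝ) < q := by linarith
    have hle : wt p ≤ 2 * wt q := by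
      unfold wt
      have hq2' : (q : ℝ) ≤ 2 * p := by exact_mod_cast hq2
      have hlp : 0 ≤ Real.log p := Real.log_natCast_nonneg p
      have hlpq : Real.log p ≤ Real.log q := Real.log_le_log hp0 hpq'
      have e : 2 * (Real.log q / q) = Real.log q / (q / 2) := by field_simp
      rw [e]
      exact div_le_div₀ (Real.log_natCast_nonneg q) hlpq (by positivity) (by linarith)
    refine (g2 p (by omega) q hpq hq2 y y' y'' z z' z'' hy hz hd).trans ?_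
    calc K2 * (Real.log p / p) ^ 2 = K2 * (wt p * wt p) := by unfold wt; ring
      _ ≤ K2 * (wt p * (2 * wt q)) := by gcongr
      _ ≤ _ := by nlinarith [mul_nonneg hK1.le hww]
  · refine (g1 p (by omega) q hq2 y y' z z' hy.loc hz.loc).trans ?_
    nlinarith [mul_nonneg hK2.le hww]

/-- a bound for the measure from a bound for the integral -/
lemma meas_le' {f : ℝ → ℝ} {A : Set ℝ} {b0 b1 c : ℝ} (hf : Measurable f) (h0 : ∀ t, 0 ≤ f t)
    (h1 : ∀ t, f t ≤ 1) (hA : ∀ t ∈ A, f t = 1) (hc : ∫ t in Set.Ioc b0 b1, f t ≤ c) :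
    (volume.restrict (Set.Ioc b0 b1)) A ≤ ENNReal.ofReal c := by
  have hint : Integrable f (volume.restrict (Set.Ioc b0 b1)) := by
    refine Integrable.of_bound hf.aestronglyMeasurable 1 (Eventually.of_forall fun x => ?_)
    rw [Real.norm_of_nonneg (h0 x)]
    exact h1 x
  have h2 := mul_meas_ge_le_lintegral (μ := volume.restrict (Set.Ioc b0 b1))
    (f := fun x => ENNReal.ofReal (f x)) hf.ennreal_ofReal 1
  rw [one_mul] at h2
  have h3 : (volume.restrict (Set.Ioc b0 b1)) A ≤ ∫⁻ t in Set.Ioc b0 b1, ENNReal.ofReal (f t) := by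
    refine le_trans (measure_mono ?_) h2
    intro x hx
    show 1 ≤ ENNReal.ofReal (f x)
    rw [hA x hx]
    simp
  refine h3.trans ?_
  rw [← ofReal_integral_eq_lintegral_ofReal hint (Eventually.of_forall h0)]
  exact ENNReal.ofReal_le_ofReal hc

lemma Cur_mono {a0 a1 D D' : ℝ} {h1 : ℝ → ℝ} {p : ℕ} {y y' y'' : ℝ → ℝ} (h : Cur a0 a1 D h1 p y y' y'')
    (hD : D ≤ D') : Cur a0 a1 D' h1 p y y' y'' :=
  ⟨⟨fun t ht => (h.loc.near t ht).trans hD, h.loc.der, fun t ht => (h.loc.slope t ht).trans hD⟩,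
    h.der2, h.cont2, h.slope, fun t ht => (h.curv t ht).trans hD⟩

/-- the pair of the levels `p` and `q` occurs (no condition at the first level below `N`) -/
def Occ (N : ℕ) (y z : ℕ → ℝ → ℝ) (t : ℝ) (x : ℕ × ℕ) : Prop :=
  (N ≤ x.1 → (roughPart x.1 (NN (y x.1 t))).Prime) ∧ (roughPart x.2 (NN (z x.2 t))).Prime

/-- the Borel–Cantelli lemma for sets of pairs -/
lemma bc0 {μ : Measure ℝ} {R : Set (ℕ × ℕ)} {K : ℝ} (hK : 0 ≤ K) {E : ℝ → ℕ × ℕ → Prop}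
    (hmeas : ∀ x ∈ R, μ {t | E t x} ≤ ENNReal.ofReal (K * (wt x.1 * wt x.2)))
    (hs : Summable fun x : R => wt x.1.1 * wt x.1.2) : ∀ᵐ t ∂μ, {x ∈ R | E t x}.Finite := by
  have htop : ∑' x : R, μ {t | E t x.1} ≠ ⊤ := by
    refine ne_top_of_le_ne_top ?_ (ENNReal.tsum_le_tsum fun x : R => hmeas x.1 x.2)
    rw [← ENNReal.ofReal_tsum_of_nonneg (fun x => mul_nonneg hK (mul_nonneg (wt_nonneg _) (wt_nonneg _)))
      (hs.mul_left K)]
    exact ENNReal.ofReal_ne_top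
  filter_upwards [ae_finite_setOfPred_mem htop] with t ht
  have h1 := ht.image (fun x : R => x.1)
  refine h1.subset ?_
  rintro x ⟨hx, h2⟩
  exact ⟨⟨x, hx⟩, h2, rfl⟩

lemma summ_sub {R R' : Set (ℕ × ℕ)} (h : R' ⊆ R) (hs : Summable fun x : R => wt x.1.1 * wt x.1.2) :
    Summable fun x : R' => wt x.1.1 * wt x.1.2 := by
  have h1 := hs.comp_injective (Set.inclusion_injective h)
  have e : (fun x : R' => wt x.1.1 * wt x.1.2) = ((fun x : R => wt x.1.1 * wt x.1.2) ∘ Set.inclusion h) := by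
    funext x
    rfl
  rw [e]
  exact h1

/-- the same with finitely many exceptional pairs -/
lemma bc {μ : Measure ℝ} {Q : ℕ} {R : Set (ℕ × ℕ)} (hR : ∀ x ∈ R, x.1 ≤ x.2) {K : ℝ} (hK : 0 ≤ K)
    {E : ℝ → ℕ × ℕ → Prop}
    (hmeas : ∀ x ∈ R, Q ≤ x.2 → μ {t | E t x} ≤ ENNReal.ofReal (K * (wt x.1 * wt x.2)))
    (hs : Summable fun x : R => wt x.1.1 * wt x.1.2) : ∀ᵐ t ∂μ, {x ∈ R | E t x}.Finite := by
  have hsub : {x ∈ R | Q ≤ x.2} ⊆ R := fun x hx => hx.1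
  have h0 := bc0 (R := {x ∈ R | Q ≤ x.2}) hK (E := E) (fun x hx => hmeas x hx.1 hx.2) (summ_sub hsub hs)
  filter_upwards [h0] with t ht
  have h2 : ({x : ℕ × ℕ | x.1 < Q ∧ x.2 < Q}).Finite :=
    (((Finset.range Q) ×ˢ (Finset.range Q)).finite_toSet).subset (by
      rintro x ⟨h3, h4⟩
      rw [mem_coe, mem_product, mem_range, mem_range]
      exact ⟨h3, h4⟩)
  refine (ht.union h2).subset ?_
  rintro x ⟨hx, hx2⟩
  rcases lt_or_ge x.2 Q with hlt | hge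
  · right
    exact ⟨(hR x hx).trans_lt hlt, hlt⟩
  · left
    exact ⟨⟨hx, hge⟩, hx2⟩

/-- one window -/
theorem window {a0 a1 D b0 b1 δ : ℝ} {h1 h2 : ℝ → ℝ} (ha0 : 0 < a0) (hD : 0 ≤ D) (h0 : a0 < b0)
    (h01 : b0 < b1) (hb : b1 < a1) (hδ : 0 < δ) (hδ1 : δ ≤ 1) {y y' y'' z z' z'' : ℕ → ℝ → ℝ}
    (hym : ∀ p, Measurable (y p)) (hzm : ∀ p, Measurable (z p))
    (hy : ∀ᶠ p : ℕ in atTop, Cur a0 a1 D h1 p (y p) (y' p) (y'' p))
    (hz : ∀ᶠ p : ℕ in atTop, Cur a0 a1 D h2 p (z p) (z' p) (z'' p))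
    (R : Set (ℕ × ℕ)) (hR : ∀ x ∈ R, 2 ≤ x.1 ∧ x.1 ≤ x.2)
    (hslope : ∃ P0 : ℕ, ∀ x ∈ R, P0 ≤ x.1 → ∀ t ∈ Set.Icc a0 a1, δ ≤ z' x.2 t - y' x.1 t)
    (hs : Summable fun x : R => wt x.1.1 * wt x.1.2) (N : ℕ) :
    ∀ᵐ t ∂(volume.restrict (Set.Ioc b0 b1)), {x ∈ R | Occ N y z t x}.Finite := by
  obtain ⟨K1, hK1, P1, g1⟩ := pair_cur (h1 := h1) (h2 := h2) ha0 hD h0 h01 hb hδ hδ1
  obtain ⟨K5, hK5, P5, hP53, hone⟩ := one_loc ha0 hD h0 h01 hb
  obtain ⟨P2, g2⟩ := eventually_atTop.1 (hy.and hz)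
  obtain ⟨P0, hsl⟩ := hslope
  set Q := P0 + P1 + P2 + P5 + N + 3 with hQ
  have hl2 : 0 < Real.log 2 := Real.log_pos (by norm_num)
  have hQ0 : (0 : ℝ) < Q := by exact_mod_cast (by omega : 0 < Q)
  set w0 := Real.log 2 / Q with hw0
  have hw0pos : 0 < w0 := by positivity
  have hlow : ∀ m : ℕ, 2 ≤ m → m ≤ Q → w0 ≤ wt m := by
    intro m hm hmQ
    have hm2 : (2 : ℝ) ≤ m := by exact_mod_cast hm
    have hmQ' : (m : ℝ) ≤ Q := by exact_mod_cast hmQ
    unfold wt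
    exact div_le_div₀ (Real.log_natCast_nonneg m) (Real.log_le_log (by norm_num) hm2) (by linarith) hmQ'
  set K := K1 + K5 / w0 with hK
  have hK0 : 0 < K := by positivity
  refine bc (Q := Q) (fun x hx => (hR x hx).2) hK0.le ?_ hs
  · rintro ⟨p, q⟩ hx hxQ
    obtain ⟨hp2, hpq⟩ := hR _ hx
    simp only at hp2 hpq hxQ
    have hwp := wt_nonneg p
    have hwq := wt_nonneg q
    have hww := mul_nonneg hwp hwq
    rcases le_total Q p with hpQ | hpQ
    · have h5 := g1 p (by omega) q hpq _ _ _ _ _ _ (g2 p (by omega)).1 (g2 q (by omega)).2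
        (hsl (p, q) hx (by simp only; omega))
      refine meas_le' (f := fun t => ff p (y p t) * ff q (z q t))
        (((measurable_ff p).comp (hym p)).mul ((measurable_ff q).comp (hzm q)))
        (fun t => mul_nonneg (ff_nonneg _ _) (ff_nonneg _ _))
        (fun t => mul_le_one₀ (ff_le_one _ _) (ff_nonneg _ _) (ff_le_one _ _)) (fun t ht => ?_)
        (h5.trans ?_)
      · obtain ⟨h6, h7⟩ := ht
        simp only at h6 h7
        unfold ff
        rw [if_pos (h6 (by omega)), if_pos h7]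
        norm_num
      · rw [hK]
        have : 0 ≤ K5 / w0 * (wt p * wt q) := by positivity
        nlinarith
    · have h5 := ((hone q (by omega)).2 _ _ (g2 q (by omega)).2.loc).2.2.1
      refine meas_le' (f := fun t => ff q (z q t)) ((measurable_ff q).comp (hzm q))
        (fun t => ff_nonneg _ _) (fun t => ff_le_one _ _) (fun t ht => ?_) (h5.trans ?_)
      · obtain ⟨_, h7⟩ := ht
        simp only at h7
        unfold ff
        rw [if_pos h7]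
      · have hw : w0 ≤ wt p := hlow p hp2 hpQ
        have e : K5 * (Real.log q / q) = K5 / w0 * (w0 * wt q) := by
          unfold wt
          field_simp
        rw [e]
        have h8 : K5 / w0 * (w0 * wt q) ≤ K5 / w0 * (wt p * wt q) := by gcongr
        have h9 : 0 ≤ K1 * (wt p * wt q) := by positivity
        rw [hK]
        nlinarith

/-- **Finitely many pairs.** -/
theorem pairs {c0 : ℝ} (hc0 : 0 ≤ c0) {h1 h2 : ℝ → ℝ} {y y' y'' z z' z'' : ℕ → ℝ → ℝ}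
    (hym : ∀ p, Measurable (y p)) (hzm : ∀ p, Measurable (z p))
    (hy : ∀ a0 a1 : ℝ, c0 < a0 → a0 < a1 → ∃ D : ℝ, 0 ≤ D ∧
      ∀ᶠ p : ℕ in atTop, Cur a0 a1 D h1 p (y p) (y' p) (y'' p))
    (hz : ∀ a0 a1 : ℝ, c0 < a0 → a0 < a1 → ∃ D : ℝ, 0 ≤ D ∧
      ∀ᶠ p : ℕ in atTop, Cur a0 a1 D h2 p (z p) (z' p) (z'' p))
    (R : Set (ℕ × ℕ)) (hR : ∀ x ∈ R, 2 ≤ x.1 ∧ x.1 ≤ x.2) (U : Set ℝ)
    (hslope : ∀ t0 ∈ U, ∃ a0 a1 δ : ℝ, c0 < a0 ∧ a0 < t0 ∧ t0 < a1 ∧ 0 < δ ∧ δ ≤ 1 ∧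
      ∃ P0 : ℕ, ∀ x ∈ R, P0 ≤ x.1 → ∀ t ∈ Set.Icc a0 a1, δ ≤ z' x.2 t - y' x.1 t)
    (hs : Summable fun x : R => wt x.1.1 * wt x.1.2) :
    ∀ᵐ t : ℝ, t ∈ U → ∀ N : ℕ, {x ∈ R | Occ N y z t x}.Finite := by
  suffices h : ∀ N : ℕ, ∀ᵐ t : ℝ, t ∈ U → {x ∈ R | Occ N y z t x}.Finite by
    filter_upwards [ae_all_iff.2 h] with t ht htU N
    exact ht N htU
  intro N
  rw [ae_iff]
  refine measure_null_of_locally_null _ fun t0 ht0 => ?_
  have htU : t0 ∈ U := by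
    by_contra hcon
    exact ht0 fun h => (hcon h).elim
  obtain ⟨a0, a1, δ, g1, g2, g3, g4, g5, P0, g6⟩ := hslope t0 htU
  obtain ⟨D1, hD1, e1⟩ := hy a0 a1 g1 (g2.trans g3)
  obtain ⟨D2, hD2, e2⟩ := hz a0 a1 g1 (g2.trans g3)
  have hw := window (a0 := a0) (a1 := a1) (D := D1 + D2) (b0 := (a0 + t0) / 2) (b1 := (t0 + a1) / 2)
    (h1 := h1) (h2 := h2) (by linarith) (by linarith) (by linarith) (by linarith) (by linarith) g4 g5 hym hzm
    (by filter_upwards [e1] with p hp; exact Cur_mono hp (by linarith))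
    (by filter_upwards [e2] with p hp; exact Cur_mono hp (by linarith)) R hR ⟨P0, g6⟩ hs N
  refine ⟨Set.Ioc ((a0 + t0) / 2) ((t0 + a1) / 2) ∩ {t | ¬(t ∈ U → {x ∈ R | Occ N y z t x}.Finite)},
    Filter.inter_mem (mem_nhdsWithin_of_mem_nhds (Ioc_mem_nhds (by linarith) (by linarith)))
      self_mem_nhdsWithin, ?_⟩
  rw [ae_restrict_iff' measurableSet_Ioc, ae_iff] at hw
  refine measure_mono_null ?_ hw
  rintro t ⟨h7, h8⟩ h9
  exact h8 fun _ => h9 h7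

end Pool.Agent.Q43.CV
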