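import Mathlib
import Pool.Agent.Q43.CV.Pair
import Pool.Agent.Q43.PR.Sums

set_option autoImplicit false

/-!
# Curve families: repulsion, and joint primes at the same level
-/

namespace Pool.Agent.Q43.CV

open Finset Filter Topology MeasureTheory
open Pool.Agent.W66C
open Pool.Agent.H447R2.ML (Loc ff_eq_floor)
open Pool.Agent.TH888.R (wt wt_nonneg wt_le_one)
open Pool.Agent.H305R2 (roughPart NN ff)

/-- the slopes of a perturbed exponential -/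
lemma slope_small {m1 m0 s c0 : ℝ} (hm1 : 0 < m1) (hs : |s| ≤ 1) (hc : m0 ≤ m1 * c0) (H' : ℝ → ℝ)
    {a0 a1 η : ℝ} (ha0 : c0 < a0) (hη : 0 < η) :
    ∀ᶠ p : ℕ in atTop, ∀ t ∈ Set.Icc a0 a1, |yy1 m1 m0 s H' p t - p - H' t| ≤ η := by
  set μ0 := m1 * a0 - m0 with hμ0
  have hμ0pos : 0 < μ0 := by
    have : m1 * c0 < m1 * a0 := mul_lt_mul_of_pos_left ha0 hm1
    rw [hμ0]; linarith
  have hlin : Tendsto (fun p : ℕ => μ0 * (p : ℝ)) atTop atTop :=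
    tendsto_natCast_atTop_atTop.const_mul_atTop hμ0pos
  have l0 := (Real.tendsto_pow_mul_exp_neg_atTop_nhds_zero 0).comp hlin
  have l1 := (Real.tendsto_pow_mul_exp_neg_atTop_nhds_zero 1).comp hlin
  filter_upwards [l0.eventually_lt_const (show (0 : ℝ) < 1 / 2 by norm_num),
    l1.eventually_lt_const (show (0 : ℝ) < μ0 * η / (2 * m1) by positivity)] with p e0 e1 t ht
  simp only [Function.comp, pow_zero, one_mul, pow_one] at e0 e1
  set E := Real.exp (-(μ0 * (p : ℝ))) with hE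
  have hE0 : 0 < E := Real.exp_pos _
  have hp0 : (0 : ℝ) ≤ p := Nat.cast_nonneg p
  have f1 : p * m1 * E ≤ η / 2 := by
    rw [lt_div_iff₀ (by positivity)] at e1
    have h2 : μ0 * (p * m1 * E * 2) < μ0 * η := by
      calc μ0 * (p * m1 * E * 2) = μ0 * p * E * (2 * m1) := by ring
        _ < μ0 * η := e1
    have h3 := lt_of_mul_lt_mul_left h2 hμ0pos.le
    linarith
  set e : ℝ := Real.exp (-(p * (m1 * t - m0))) with he
  have hele : e ≤ E := by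
    rw [he, hE]
    refine Real.exp_le_exp.2 ?_
    have h2 : m1 * a0 ≤ m1 * t := mul_le_mul_of_nonneg_left ht.1 hm1.le
    have h3 : (p : ℝ) * μ0 ≤ p * (m1 * t - m0) := mul_le_mul_of_nonneg_left (by rw [hμ0]; linarith) hp0
    linarith
  have hepos : 0 < e := Real.exp_pos _
  have hse : |s * e| ≤ E := by
    rw [abs_mul, abs_of_pos hepos]
    calc |s| * e ≤ 1 * E := mul_le_mul hs hele hepos.le zero_le_one
      _ = E := one_mul _
  have hden : 1 / 2 ≤ 1 + s * e := by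
    have := (abs_le.1 hse).1
    linarith
  have e3 : yy1 m1 m0 s H' p t - p - H' t = (-(p * m1) * (s * e)) / (1 + s * e) := by
    unfold yy1
    rw [← he]
    ring
  rw [e3, abs_div, div_le_iff₀ (abs_pos.2 (by linarith)), abs_mul, abs_neg,
    abs_of_nonneg (by positivity : (0 : ℝ) ≤ p * m1)]
  have h3 : (p * m1) * |s * e| ≤ p * m1 * E := mul_le_mul_of_nonneg_left hse (by positivity)
  have h4 : 1 / 2 ≤ |1 + s * e| := hden.trans (le_abs_self _)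
  nlinarith

/-- one family, different levels -/
theorem same {c0 : ℝ} (hc0 : 0 ≤ c0) {h1 : ℝ → ℝ} {y y' y'' : ℕ → ℝ → ℝ}
    (hym : ∀ p, Measurable (y p))
    (hfam : ∀ a0 a1 : ℝ, c0 < a0 → a0 < a1 → ∃ D : ℝ, 0 ≤ D ∧
      ∀ᶠ p : ℕ in atTop, Cur a0 a1 D h1 p (y p) (y' p) (y'' p))
    (R : Set (ℕ × ℕ)) (hR : ∀ x ∈ R, 2 ≤ x.1 ∧ x.1 < x.2)
    (hs : Summable fun x : R => wt x.1.1 * wt x.1.2) :
    ∀ᵐ t : ℝ, c0 < t → ∀ N : ℕ, {x ∈ R | Occ N y y t x}.Finite := by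
  refine pairs hc0 hym hym hfam hfam R (fun x hx => ⟨(hR x hx).1, (hR x hx).2.le⟩) (Set.Ioi c0)
    (fun t0 ht0 => ?_) hs
  have ht0' : c0 < t0 := ht0
  obtain ⟨D, _, hev⟩ := hfam ((c0 + t0) / 2) (t0 + 1) (by linarith) (by linarith)
  obtain ⟨P, hP⟩ := eventually_atTop.1 hev
  refine ⟨(c0 + t0) / 2, t0 + 1, 3 / 4, by linarith, by linarith, by linarith, by norm_num, by norm_num,
    P, fun x hx hxP t ht => ?_⟩
  have hlt := (hR x hx).2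
  have h2 := abs_le.1 ((hP x.1 hxP).slope t ht)
  have h3 := abs_le.1 ((hP x.2 (by omega)).slope t ht)
  have h4 : (x.1 : ℝ) + 1 ≤ x.2 := by exact_mod_cast hlt
  linarith [h2.1, h2.2, h3.1, h3.2]

/-- the diagonal has finite weight -/
lemma summ_diag : Summable fun x : {x : ℕ × ℕ | 2 ≤ x.1 ∧ x.2 = x.1} => wt x.1.1 * wt x.1.2 := by
  have hs : Summable (fun n : ℕ => 16 * (1 / (n : ℝ) ^ ((3 : ℝ) / 2))) :=
    (Real.summable_one_div_nat_rpow.2 (by norm_num)).mul_left 16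
  have hinj : Function.Injective (fun x : {x : ℕ × ℕ | 2 ≤ x.1 ∧ x.2 = x.1} => x.1.1) := by
    rintro ⟨⟨a, c⟩, hx⟩ ⟨⟨a', c'⟩, hy⟩ hxy
    simp only at hxy
    have h1 := hx.2
    have h2 := hy.2
    simp only at h1 h2
    subst hxy
    rw [← h2] at h1
    subst h1
    rfl
  refine (hs.comp_injective hinj).of_nonneg_of_le (fun x => mul_nonneg (wt_nonneg _) (wt_nonneg _)) ?_
  rintro ⟨⟨p, q⟩, hx⟩
  obtain ⟨h1, h2⟩ := hx
  simp only at h1 h2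
  subst h2
  have hp2 : (2 : ℝ) ≤ q := by exact_mod_cast h1
  have hp0 : (0 : ℝ) < q := by linarith
  have hlog : Real.log q ≤ 4 * (q : ℝ) ^ ((1 : ℝ) / 4) := by
    have h5 := Real.log_le_rpow_div hp0.le (show (0 : ℝ) < 1 / 4 by norm_num)
    linarith
  have e : (q : ℝ) = (q : ℝ) ^ ((1 : ℝ) / 4) * (q : ℝ) ^ ((3 : ℝ) / 4) := by
    rw [← Real.rpow_add hp0]
    norm_num
  have h6 : wt q ≤ 4 * (1 / (q : ℝ) ^ ((3 : ℝ) / 4)) := by
    unfold wt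
    rw [div_le_iff₀ hp0]
    calc Real.log q ≤ 4 * (q : ℝ) ^ ((1 : ℝ) / 4) := hlog
      _ = 4 * (1 / (q : ℝ) ^ ((3 : ℝ) / 4)) * ((q : ℝ) ^ ((1 : ℝ) / 4) * (q : ℝ) ^ ((3 : ℝ) / 4)) := by
          field_simp
      _ = _ := by rw [← e]
  show wt q * wt q ≤ 16 * (1 / (q : ℝ) ^ ((3 : ℝ) / 2))
  calc wt q * wt q ≤ (4 * (1 / (q : ℝ) ^ ((3 : ℝ) / 4))) * (4 * (1 / (q : ℝ) ^ ((3 : ℝ) / 4))) :=
        mul_le_mul h6 h6 (wt_nonneg _) (by positivity)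
    _ = 16 * (1 / ((q : ℝ) ^ ((3 : ℝ) / 4) * (q : ℝ) ^ ((3 : ℝ) / 4))) := by field_simp; norm_num
    _ = _ := by
        rw [← Real.rpow_add hp0]
        norm_num

/-- two families, the same level, one order of the slopes -/
theorem joint1 {c0 : ℝ} (hc0 : 0 ≤ c0) {m1 m0 s n1 n0 r : ℝ} (hm1 : 0 < m1) (hs : |s| ≤ 1)
    (hm : m0 ≤ m1 * c0) (hn1 : 0 < n1) (hr : |r| ≤ 1) (hn : n0 ≤ n1 * c0)
    {H H' H'' G G' G'' : ℝ → ℝ} (hHm : Measurable H) (hGm : Measurable G)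
    (hH : ∀ t, c0 < t → HasDerivAt H (H' t) t) (hH' : ∀ t, c0 < t → HasDerivAt H' (H'' t) t)
    (hH'' : ContinuousOn H'' (Set.Ioi c0))
    (hG : ∀ t, c0 < t → HasDerivAt G (G' t) t) (hG' : ∀ t, c0 < t → HasDerivAt G' (G'' t) t)
    (hG'' : ContinuousOn G'' (Set.Ioi c0)) :
    ∀ᵐ t : ℝ, c0 < t → H' t < G' t → ∀ N : ℕ,
      {p : ℕ | 2 ≤ p ∧ N ≤ p ∧ (roughPart p (NN (yy m1 m0 s H p t))).Prime ∧
        (roughPart p (NN (yy n1 n0 r G p t))).Prime}.Finite := by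
  have hy := fam_cur (m1 := m1) (m0 := m0) (s := s) (c0 := c0) hm1 hs hm hH hH' hH''
  have hz := fam_cur (m1 := n1) (m0 := n0) (s := r) (c0 := c0) hn1 hr hn hG hG' hG''
  have hmain := pairs hc0 (fun p => measurable_yy m1 m0 s hHm p) (fun p => measurable_yy n1 n0 r hGm p)
    hy hz {x : ℕ × ℕ | 2 ≤ x.1 ∧ x.2 = x.1} (fun x hx => ⟨hx.1, hx.2.ge⟩)
    {t | c0 < t ∧ H' t < G' t} (fun t0 ht0 => ?_) summ_diag
  · filter_upwards [hmain] with t ht htc hlt N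
    refine ((ht ⟨htc, hlt⟩ N).image Prod.fst).subset ?_
    rintro p ⟨h2, h3, h4, h5⟩
    exact ⟨(p, p), ⟨⟨h2, rfl⟩, fun _ => h4, h5⟩, rfl⟩
  · obtain ⟨htc, hlt⟩ := ht0
    set d := G' t0 - H' t0 with hd
    have hd0 : 0 < d := by rw [hd]; linarith
    have hcont : ContinuousAt (fun t => G' t - H' t) t0 :=
      (hG' t0 htc).continuousAt.sub (hH' t0 htc).continuousAt
    have hev : ∀ᶠ t in 𝓝 t0, c0 < t ∧ d / 2 < G' t - H' t :=
      (eventually_gt_nhds htc).and (hcont.eventually_const_lt (show d / 2 < G' t0 - H' t0 by linarith))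
    obtain ⟨ε, hε, hball⟩ := Metric.eventually_nhds_iff.1 hev
    have hin : ∀ t ∈ Set.Icc (t0 - ε / 2) (t0 + ε / 2), c0 < t ∧ d / 2 < G' t - H' t := by
      intro t ht
      refine hball ?_
      rw [Real.dist_eq, abs_lt]
      constructor <;> linarith [ht.1, ht.2]
    have hc : c0 < t0 - ε / 2 := (hin _ ⟨le_rfl, by linarith⟩).1
    obtain ⟨P1, hP1⟩ := eventually_atTop.1 (slope_small (a1 := t0 + ε / 2) hm1 hs hm H' hc
      (show 0 < d / 8 by positivity))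
    obtain ⟨P2, hP2⟩ := eventually_atTop.1 (slope_small (a1 := t0 + ε / 2) hn1 hr hn G' hc
      (show 0 < d / 8 by positivity))
    refine ⟨t0 - ε / 2, t0 + ε / 2, min (d / 4) 1, hc, by linarith, by linarith,
      lt_min (by positivity) one_pos, min_le_right _ _, P1 + P2, ?_⟩
    rintro ⟨p, q⟩ ⟨_, hpq⟩ hP t ht
    simp only at hpq hP ⊢
    subst hpq
    have e1 := (abs_le.1 (hP1 q (by omega) t ht)).2
    have e2 := (abs_le.1 (hP2 q (by omega) t ht)).1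
    have e3 := (hin t ht).2
    refine (min_le_left _ _).trans ?_
    linarith

/-- **Two families, the same level.** -/
theorem joint {c0 : ℝ} (hc0 : 0 ≤ c0) {m1 m0 s n1 n0 r : ℝ} (hm1 : 0 < m1) (hs : |s| ≤ 1)
    (hm : m0 ≤ m1 * c0) (hn1 : 0 < n1) (hr : |r| ≤ 1) (hn : n0 ≤ n1 * c0)
    {H H' H'' G G' G'' : ℝ → ℝ} (hHm : Measurable H) (hGm : Measurable G)
    (hH : ∀ t, c0 < t → HasDerivAt H (H' t) t) (hH' : ∀ t, c0 < t → HasDerivAt H' (H'' t) t)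
    (hH'' : ContinuousOn H'' (Set.Ioi c0))
    (hG : ∀ t, c0 < t → HasDerivAt G (G' t) t) (hG' : ∀ t, c0 < t → HasDerivAt G' (G'' t) t)
    (hG'' : ContinuousOn G'' (Set.Ioi c0)) :
    ∀ᵐ t : ℝ, c0 < t → H' t ≠ G' t → ∀ N : ℕ,
      {p : ℕ | 2 ≤ p ∧ N ≤ p ∧ (roughPart p (NN (yy m1 m0 s H p t))).Prime ∧
        (roughPart p (NN (yy n1 n0 r G p t))).Prime}.Finite := by
  filter_upwards [joint1 hc0 hm1 hs hm hn1 hr hn hHm hGm hH hH' hH'' hG hG' hG'',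
    joint1 hc0 hn1 hr hn hm1 hs hm hGm hHm hG hG' hG'' hH hH' hH''] with t g1 g2 htc hne N
  rcases lt_or_gt_of_ne hne with h | h
  · exact g1 htc h N
  · refine (g2 htc h N).subset ?_
    rintro p ⟨h1, h2, h3, h4⟩
    exact ⟨h1, h2, h4, h3⟩

/-- the levels of a curve family and the integer parts -/
lemma link {c0 : ℝ} {h1 : ℝ → ℝ} {y y' y'' : ℕ → ℝ → ℝ}
    (hfam : ∀ a0 a1 : ℝ, c0 < a0 → a0 < a1 → ∃ D : ℝ, 0 ≤ D ∧
      ∀ᶠ p : ℕ in atTop, Cur a0 a1 D h1 p (y p) (y' p) (y'' p)) {val : ℕ → ℝ → ℝ}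
    (hval : ∀ t, c0 < t → ∀ᶠ p : ℕ in atTop, p.Prime → 0 < val p t ∧ Real.log (val p t) = y p t) :
    ∀ᵐ t : ℝ, c0 < t → ∃ P : ℕ, ∀ p ≥ P, p.Prime →
      ((roughPart p (NN (y p t))).Prime ↔ (roughPart p ⌊val p t⌋₊).Prime) := by
  filter_upwards [ne_nat_ae hfam] with t h3 htc
  obtain ⟨P1, hP1⟩ := h3 htc
  obtain ⟨P2, hP2⟩ := eventually_atTop.1 (hval t htc)
  refine ⟨P1 + P2, fun p hp hpp => ?_⟩
  obtain ⟨h4, h5⟩ := hP2 p (by omega) hpp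
  have h6 : ff p (y p t) = if (roughPart p ⌊val p t⌋₊).Prime then 1 else 0 := by
    rw [← h5]
    refine ff_eq_floor h4 fun m hm => hP1 p (by omega) m ?_
    rw [← h5, Real.exp_log h4]
    exact hm
  unfold ff at h6
  constructor
  · intro h
    rw [if_pos h] at h6
    by_contra hc
    rw [if_neg hc] at h6
    norm_num at h6
  · intro h
    rw [if_pos h] at h6
    by_contra hc
    rw [if_neg hc] at h6
    norm_num at h6

/-- finitely many pairs in `R` -/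
def Rep (s : ℕ → ℕ) (R : Set (ℕ × ℕ)) : Prop :=
  {x ∈ R | (roughPart x.1 (s x.1)).Prime ∧ (roughPart x.2 (s x.2)).Prime}.Finite

/-- the gaps -/
def Gaps (s : ℕ → ℕ) : Prop := ∀ ε : ℝ, 0 < ε → ∃ P : ℕ, ∀ p q : ℕ, P ≤ p →
    p < q → p.Prime → q.Prime → (roughPart p (s p)).Prime → (roughPart q (s q)).Prime →
    (p : ℝ) + p / Real.log p ^ (1 + ε) < q

/-- the close pairs -/
def Cl (n : ℕ) : Set (ℕ × ℕ) := {x | x.1.Prime ∧ x.2.Prime ∧ x.1 < x.2 ∧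
    (x.2 : ℝ) ≤ x.1 + x.1 / Real.log x.1 ^ (1 + 1 / ((n : ℝ) + 1))}

lemma summ_Cl (n : ℕ) : Summable fun x : Cl n => wt x.1.1 * wt x.1.2 := by
  obtain ⟨C, hC⟩ := Pool.Agent.Q43.PR.pairs_sum (ε := 1 / ((n : ℝ) + 1)) (by positivity)
  refine summable_of_sum_le (c := C) (fun x => mul_nonneg (wt_nonneg _) (wt_nonneg _)) fun u => ?_
  have h1 := hC (u.map ⟨Subtype.val, Subtype.val_injective⟩) (by
    intro x hx
    rw [Finset.mem_map] at hx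
    obtain ⟨y, _, rfl⟩ := hx
    exact y.2)
  rw [Finset.sum_map] at h1
  exact h1

lemma gaps_of {s : ℕ → ℕ} (h : ∀ n, Rep s (Cl n)) : Gaps s := by
  intro ε hε
  obtain ⟨n, hn⟩ := exists_nat_one_div_lt hε
  obtain ⟨B, hB⟩ := ((h n).image Prod.fst).bddAbove
  refine ⟨B + 3, fun p q hp hpq h1 h2 h3 h4 => ?_⟩
  by_contra hcon
  push Not at hcon
  have hp3 : (3 : ℝ) ≤ p := by exact_mod_cast (by omega : 3 ≤ p)
  have hpl : 1 ≤ Real.log p := by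
    rw [Real.le_log_iff_exp_le (by linarith)]
    have := Real.exp_one_lt_d9
    linarith
  have hmem : (p, q) ∈ Cl n := by
    refine ⟨h1, h2, hpq, hcon.trans ?_⟩
    have h6 : Real.log p ^ (1 + 1 / ((n : ℝ) + 1)) ≤ Real.log p ^ (1 + ε) :=
      Real.rpow_le_rpow_of_exponent_le hpl (by linarith)
    show (p : ℝ) + p / Real.log p ^ (1 + ε) ≤ p + p / Real.log p ^ (1 + 1 / ((n : ℝ) + 1))
    gcongr
  have h7 : p ≤ B := hB ⟨(p, q), ⟨hmem, h3, h4⟩, rfl⟩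
  omega

/-- **Repulsion for the integer parts of a curve family.** -/
theorem rep {c0 : ℝ} (hc0 : 0 ≤ c0) {h1 : ℝ → ℝ} {y y' y'' : ℕ → ℝ → ℝ}
    (hym : ∀ p, Measurable (y p))
    (hfam : ∀ a0 a1 : ℝ, c0 < a0 → a0 < a1 → ∃ D : ℝ, 0 ≤ D ∧
      ∀ᶠ p : ℕ in atTop, Cur a0 a1 D h1 p (y p) (y' p) (y'' p)) {val : ℕ → ℝ → ℝ}
    (hval : ∀ t, c0 < t → ∀ᶠ p : ℕ in atTop, p.Prime → 0 < val p t ∧ Real.log (val p t) = y p t)
    (R : Set (ℕ × ℕ)) (hR : ∀ x ∈ R, x.1.Prime ∧ x.2.Prime ∧ x.1 < x.2)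
    (hs : Summable fun x : R => wt x.1.1 * wt x.1.2) :
    ∀ᵐ t : ℝ, c0 < t → Rep (fun p => ⌊val p t⌋₊) R := by
  filter_upwards [same hc0 hym hfam R (fun x hx => ⟨(hR x hx).1.two_le, (hR x hx).2.2⟩) hs,
    link hfam hval] with t g1 g2 htc
  obtain ⟨P, hP⟩ := g2 htc
  have h2 : ({x : ℕ × ℕ | x.1 < P ∧ x.2 < P}).Finite :=
    (((Finset.range P) ×ˢ (Finset.range P)).finite_toSet).subset (by
      rintro x ⟨h3, h4⟩
      rw [mem_coe, mem_product, mem_range, mem_range]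
      exact ⟨h3, h4⟩)
  refine ((g1 htc P).union h2).subset ?_
  rintro x ⟨hx, h3, h4⟩
  obtain ⟨p1, p2, p3⟩ := hR x hx
  rcases lt_or_ge x.2 P with hlt | hge
  · right
    exact ⟨p3.trans hlt, hlt⟩
  · left
    exact ⟨hx, fun h5 => (hP x.1 h5 p1).2 h3, (hP x.2 hge p2).2 h4⟩

/-- **Repulsion, all conclusions.** -/
theorem rep_all {c0 : ℝ} (hc0 : 0 ≤ c0) {h1 : ℝ → ℝ} {y y' y'' : ℕ → ℝ → ℝ}
    (hym : ∀ p, Measurable (y p))
    (hfam : ∀ a0 a1 : ℝ, c0 < a0 → a0 < a1 → ∃ D : ℝ, 0 ≤ D ∧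
      ∀ᶠ p : ℕ in atTop, Cur a0 a1 D h1 p (y p) (y' p) (y'' p)) {val : ℕ → ℝ → ℝ}
    (hval : ∀ t, c0 < t → ∀ᶠ p : ℕ in atTop, p.Prime → 0 < val p t ∧ Real.log (val p t) = y p t)
    (R : Set (ℕ × ℕ)) (hR : ∀ x ∈ R, x.1.Prime ∧ x.2.Prime ∧ x.1 < x.2)
    (hs : Summable fun x : R => wt x.1.1 * wt x.1.2) :
    ∀ᵐ t : ℝ, c0 < t → Rep (fun p => ⌊val p t⌋₊) R ∧ Gaps (fun p => ⌊val p t⌋₊) := by
  have hG : ∀ᵐ t : ℝ, ∀ n : ℕ, c0 < t → Rep (fun p => ⌊val p t⌋₊) (Cl n) := by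
    rw [ae_all_iff]
    intro n
    exact rep hc0 hym hfam hval (Cl n) (fun x hx => ⟨hx.1, hx.2.1, hx.2.2.1⟩) (summ_Cl n)
  filter_upwards [rep hc0 hym hfam hval R hR hs, hG] with t g1 g2 htc
  exact ⟨g1 htc, gaps_of fun n => g2 n htc⟩

/-- **Joint primes for the integer parts of two families.** -/
theorem joint_val {c0 : ℝ} (hc0 : 0 ≤ c0) {m1 m0 s n1 n0 r : ℝ} (hm1 : 0 < m1) (hs : |s| ≤ 1)
    (hm : m0 ≤ m1 * c0) (hn1 : 0 < n1) (hr : |r| ≤ 1) (hn : n0 ≤ n1 * c0)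
    {H H' H'' G G' G'' : ℝ → ℝ} (hHm : Measurable H) (hGm : Measurable G)
    (hH : ∀ t, c0 < t → HasDerivAt H (H' t) t) (hH' : ∀ t, c0 < t → HasDerivAt H' (H'' t) t)
    (hH'' : ContinuousOn H'' (Set.Ioi c0))
    (hG : ∀ t, c0 < t → HasDerivAt G (G' t) t) (hG' : ∀ t, c0 < t → HasDerivAt G' (G'' t) t)
    (hG'' : ContinuousOn G'' (Set.Ioi c0)) {val1 val2 : ℕ → ℝ → ℝ}
    (hval1 : ∀ t, c0 < t → ∀ᶠ p : ℕ in atTop, p.Prime → 0 < val1 p t ∧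
      Real.log (val1 p t) = yy m1 m0 s H p t)
    (hval2 : ∀ t, c0 < t → ∀ᶠ p : ℕ in atTop, p.Prime → 0 < val2 p t ∧
      Real.log (val2 p t) = yy n1 n0 r G p t) :
    ∀ᵐ t : ℝ, c0 < t → H' t ≠ G' t →
      {p : ℕ | p.Prime ∧ (roughPart p ⌊val1 p t⌋₊).Prime ∧ (roughPart p ⌊val2 p t⌋₊).Prime}.Finite := by
  have hy := fam_cur (m1 := m1) (m0 := m0) (s := s) (c0 := c0) hm1 hs hm hH hH' hH''
  have hz := fam_cur (m1 := n1) (m0 := n0) (s := r) (c0 := c0) hn1 hr hn hG hG' hG''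
  filter_upwards [joint hc0 hm1 hs hm hn1 hr hn hHm hGm hH hH' hH'' hG hG' hG'',
    link hy hval1, link hz hval2] with t g1 g2 g3 htc hne
  obtain ⟨P1, hP1⟩ := g2 htc
  obtain ⟨P2, hP2⟩ := g3 htc
  refine ((g1 htc hne (P1 + P2)).union (Set.finite_lt_nat (P1 + P2))).subset ?_
  rintro p ⟨h1, h2, h3⟩
  rcases lt_or_ge p (P1 + P2) with hlt | hge
  · right
    exact hlt
  · left
    exact ⟨h1.two_le, hge, (hP1 p (by omega) h1).2 h2, (hP2 p (by omega) h1).2 h3⟩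

end Pool.Agent.Q43.CV
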