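import Mathlib
import Pool.Agent.Q43.CV.Fam

set_option autoImplicit false

/-!
# Repulsion and joint primes: Lucas sequences at real parameters
-/

namespace Pool.Agent.Q43.CV

open Finset Filter Topology MeasureTheory
open Pool.Agent.W66C
open Pool.Agent.TH888.R (wt wt_nonneg wt_le_one)
open Pool.Agent.H305R2 (roughPart NN ff)

lemma cosh_ne (t : ℝ) : 2 * Real.cosh t ≠ 0 := by have := Real.cosh_pos t; positivity

/-- the phases of the first kind -/
lemma hval_U {A H : ℝ → ℝ} (hApos : ∀ x, 0 < x → 0 < A x)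
    (hHe : ∀ t, 0 < t → H t = Real.log (A (2 * Real.sinh t))) :
    ∀ t, (0 : ℝ) < t → ∀ᶠ p : ℕ in atTop, p.Prime → 0 < A (2 * Real.sinh t) * lU (2 * Real.sinh t) p ∧
      Real.log (A (2 * Real.sinh t) * lU (2 * Real.sinh t) p) =
        yy 2 0 1 (fun t => H t - Real.log (2 * Real.cosh t)) p t := by
  intro t ht
  filter_upwards [eventually_ge_atTop 3] with p hp hpp
  have hodd : Odd p := hpp.odd_of_ne_two (by omega)
  have hcl := lU_closed t p
  rw [hyp_odd t hodd, sub_neg_eq_add, ← Real.exp_nat_mul] at hcl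
  have hc : 0 < 2 * Real.cosh t := by have := Real.cosh_pos t; positivity
  have e1 : lU (2 * Real.sinh t) p = (Real.exp (p * t) + Real.exp (-(p * t))) / (2 * Real.cosh t) := by
    rw [← hcl]; field_simp
  have h2 : 0 < Real.exp (p * t) + Real.exp (-(p * t)) := by positivity
  have e2 : Real.exp (p * t) + Real.exp (-(p * t)) =
      Real.exp (p * t) * (1 + 1 * Real.exp (-(p * (2 * t - 0)))) := by
    rw [one_mul, mul_add, mul_one, ← Real.exp_add]
    congr 2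
    ring
  have hAp := hApos _ (sinh_pos' ht)
  have h3 : 0 < lU (2 * Real.sinh t) p := by rw [e1]; positivity
  refine ⟨mul_pos hAp h3, ?_⟩
  unfold yy
  simp only
  rw [Real.log_mul hAp.ne' h3.ne', e1, Real.log_div h2.ne' hc.ne', e2,
    Real.log_mul (Real.exp_pos _).ne' (by positivity), Real.log_exp, hHe t ht]
  ring

/-- the phases of the second kind -/
lemma hval_V {A H : ℝ → ℝ} (hApos : ∀ x, 0 < x → 0 < A x)
    (hHe : ∀ t, 0 < t → H t = Real.log (A (2 * Real.sinh t))) :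
    ∀ t, (0 : ℝ) < t → ∀ᶠ p : ℕ in atTop, p.Prime → 0 < A (2 * Real.sinh t) * lV (2 * Real.sinh t) p ∧
      Real.log (A (2 * Real.sinh t) * lV (2 * Real.sinh t) p) = yy 2 0 (-1) H p t := by
  intro t ht
  filter_upwards [eventually_ge_atTop 3] with p hp hpp
  have hodd : Odd p := hpp.odd_of_ne_two (by omega)
  have hp0 : (0 : ℝ) < p := by positivity
  have e1 : lV (2 * Real.sinh t) p = Real.exp (p * t) - Real.exp (-(p * t)) := by
    rw [lV_closed, hyp_odd t hodd, ← Real.exp_nat_mul]; ring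
  have h2 : Real.exp (-(p * (2 * t - 0))) < 1 := by
    rw [Real.exp_lt_one_iff]
    have : 0 < p * (2 * t - 0) := by
      rw [sub_zero]; positivity
    linarith
  have e2 : Real.exp (p * t) - Real.exp (-(p * t)) =
      Real.exp (p * t) * (1 + -1 * Real.exp (-(p * (2 * t - 0)))) := by
    rw [neg_one_mul, mul_add, mul_one, mul_neg, ← Real.exp_add, ← sub_eq_add_neg]
    congr 2
    ring
  have h3 : 0 < Real.exp (p * t) * (1 + -1 * Real.exp (-(p * (2 * t - 0)))) :=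
    mul_pos (Real.exp_pos _) (by linarith)
  have hAp := hApos _ (sinh_pos' ht)
  rw [e1, e2]
  refine ⟨mul_pos hAp h3, ?_⟩
  unfold yy
  rw [Real.log_mul hAp.ne' h3.ne', Real.log_mul (Real.exp_pos _).ne' (by linarith), Real.log_exp, hHe t ht]
  ring

/-- the functions of the first kind -/
lemma amp_U {A : ℝ → ℝ} (hA : ContDiffOn ℝ 2 A (Set.Ioi 0)) (hApos : ∀ x, 0 < x → 0 < A x) :
    ∃ H H' H'' : ℝ → ℝ, Measurable H ∧ (∀ t, 0 < t → H t = Real.log (A (2 * Real.sinh t))) ∧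
      (∀ t, 0 < t → HasDerivAt H (H' t) t) ∧ (∀ t, 0 < t → HasDerivAt H' (H'' t) t) ∧
      ContinuousOn H'' (Set.Ioi 0) :=
  amp (c0 := 0) hA hApos
    (g := fun t => 2 * Real.sinh t) (g' := fun t => 2 * Real.cosh t) (g'' := fun t => 2 * Real.sinh t)
    (by fun_prop) (fun t => (Real.hasDerivAt_sinh t).const_mul 2)
    (fun t => (Real.hasDerivAt_cosh t).const_mul 2) (by fun_prop) (fun t ht => sinh_pos' ht)

/-- the derivatives of the shifted function -/
lemma shift_der {H H' H'' : ℝ → ℝ} (hH1 : ∀ t, 0 < t → HasDerivAt H (H' t) t)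
    (hH2 : ∀ t, 0 < t → HasDerivAt H' (H'' t) t) (hH3 : ContinuousOn H'' (Set.Ioi 0)) :
    (∀ t, 0 < t → HasDerivAt (fun t => H t - Real.log (2 * Real.cosh t))
      (H' t - (2 * Real.sinh t / (2 * Real.cosh t))) t) ∧
    (∀ t, 0 < t → HasDerivAt (fun t => H' t - (2 * Real.sinh t / (2 * Real.cosh t)))
      (H'' t - ((2 * Real.cosh t * (2 * Real.cosh t) - 2 * Real.sinh t * (2 * Real.sinh t)) /
      (2 * Real.cosh t) ^ 2)) t) ∧
    ContinuousOn (fun t => H'' t - ((2 * Real.cosh t * (2 * Real.cosh t) - 2 * Real.sinh t * (2 * Real.sinh t)) /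
      (2 * Real.cosh t) ^ 2)) (Set.Ioi 0) :=
  ⟨fun t ht => (hH1 t ht).sub (((Real.hasDerivAt_cosh t).const_mul 2).log (cosh_ne t)),
    fun t ht => (hH2 t ht).sub (((Real.hasDerivAt_sinh t).const_mul 2).div
      ((Real.hasDerivAt_cosh t).const_mul 2) (cosh_ne t)),
    hH3.sub (ContinuousOn.div (by fun_prop) (by fun_prop) fun t _ => pow_ne_zero 2 (cosh_ne t))⟩

/-- **Repulsion, first kind.** -/
theorem rep_U {A : ℝ → ℝ} (hA : ContDiffOn ℝ 2 A (Set.Ioi 0)) (hApos : ∀ x, 0 < x → 0 < A x)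
    (R : Set (ℕ × ℕ)) (hR : ∀ x ∈ R, x.1.Prime ∧ x.2.Prime ∧ x.1 < x.2)
    (hs : Summable fun x : R => wt x.1.1 * wt x.1.2) :
    ∀ᵐ x : ℝ, 0 < x → Rep (fun p => ⌊A x * lU x p⌋₊) R ∧ Gaps (fun p => ⌊A x * lU x p⌋₊) := by
  obtain ⟨H, H', H'', hHm, hHe, hH1, hH2, hH3⟩ := amp_U hA hApos
  obtain ⟨g1, g2, g3⟩ := shift_der hH1 hH2 hH3
  have hfam := fam_cur (m1 := 2) (m0 := 0) (s := 1) (c0 := 0) two_pos (by simp) (by norm_num) g1 g2 g3
  refine ae_of_sinh (Q := fun x : ℝ => 0 < x → Rep (fun p => ⌊A x * lU x p⌋₊) R ∧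
    Gaps (fun p => ⌊A x * lU x p⌋₊)) ?_
  filter_upwards [rep_all le_rfl (fun p => measurable_yy 2 0 1 (by fun_prop) p) hfam
    (val := fun p t => A (2 * Real.sinh t) * lU (2 * Real.sinh t) p) (hval_U hApos hHe) R hR hs] with t ht hx
  exact ht (Real.sinh_pos_iff.1 (by linarith))

/-- **Repulsion, second kind.** -/
theorem rep_V {A : ℝ → ℝ} (hA : ContDiffOn ℝ 2 A (Set.Ioi 0)) (hApos : ∀ x, 0 < x → 0 < A x)
    (R : Set (ℕ × ℕ)) (hR : ∀ x ∈ R, x.1.Prime ∧ x.2.Prime ∧ x.1 < x.2)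
    (hs : Summable fun x : R => wt x.1.1 * wt x.1.2) :
    ∀ᵐ x : ℝ, 0 < x → Rep (fun p => ⌊A x * lV x p⌋₊) R ∧ Gaps (fun p => ⌊A x * lV x p⌋₊) := by
  obtain ⟨H, H', H'', hHm, hHe, hH1, hH2, hH3⟩ := amp_U hA hApos
  have hfam := fam_cur (m1 := 2) (m0 := 0) (s := -1) (c0 := 0) two_pos (by simp) (by norm_num) hH1 hH2 hH3
  refine ae_of_sinh (Q := fun x : ℝ => 0 < x → Rep (fun p => ⌊A x * lV x p⌋₊) R ∧
    Gaps (fun p => ⌊A x * lV x p⌋₊)) ?_
  filter_upwards [rep_all le_rfl (fun p => measurable_yy 2 0 (-1) hHm p) hfam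
    (val := fun p t => A (2 * Real.sinh t) * lV (2 * Real.sinh t) p) (hval_V hApos hHe) R hR hs] with t ht hx
  exact ht (Real.sinh_pos_iff.1 (by linarith))

/-- **Joint primes of the two kinds.** -/
theorem joint_UV {A B : ℝ → ℝ} (hA : ContDiffOn ℝ 2 A (Set.Ioi 0)) (hApos : ∀ x, 0 < x → 0 < A x)
    (hB : ContDiffOn ℝ 2 B (Set.Ioi 0)) (hBpos : ∀ x, 0 < x → 0 < B x) :
    ∀ᵐ x : ℝ, 0 < x → deriv (fun u => B u * Real.sqrt (u ^ 2 + 4) / A u) x ≠ 0 →
      {p : ℕ | p.Prime ∧ (roughPart p ⌊A x * lU x p⌋₊).Prime ∧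
        (roughPart p ⌊B x * lV x p⌋₊).Prime}.Finite := by
  obtain ⟨H, H', H'', hHm, hHe, hH1, hH2, hH3⟩ := amp_U hA hApos
  obtain ⟨G, G', G'', hGm, hGe, hG1, hG2, hG3⟩ := amp_U hB hBpos
  obtain ⟨g1, g2, g3⟩ := shift_der hH1 hH2 hH3
  refine ae_of_sinh (Q := fun x : ℝ => 0 < x → deriv (fun u => B u * Real.sqrt (u ^ 2 + 4) / A u) x ≠ 0 →
      {p : ℕ | p.Prime ∧ (roughPart p ⌊A x * lU x p⌋₊).Prime ∧
        (roughPart p ⌊B x * lV x p⌋₊).Prime}.Finite) ?_
  filter_upwards [joint_val (m1 := 2) (m0 := 0) (s := 1) (n1 := 2) (n0 := 0) (r := -1) (c0 := 0) le_rfl two_pos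
    (by simp) (by norm_num) two_pos (by simp) (by norm_num)
    (H := fun t => H t - Real.log (2 * Real.cosh t)) (G := G) (by fun_prop) hGm g1 g2 g3 hG1 hG2 hG3
    (val1 := fun p t => A (2 * Real.sinh t) * lU (2 * Real.sinh t) p)
    (val2 := fun p t => B (2 * Real.sinh t) * lV (2 * Real.sinh t) p)
    (hval_U hApos hHe) (hval_V hBpos hGe)] with t ht hx hne
  have h0 : 0 < t := Real.sinh_pos_iff.1 (by linarith)
  refine ht h0 fun heq => hne ?_
  -- the ratio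
  set ρ : ℝ → ℝ := fun u => B u * Real.sqrt (u ^ 2 + 4) / A u with hρ
  have hcosh : ∀ s : ℝ, Real.sqrt ((2 * Real.sinh s) ^ 2 + 4) = 2 * Real.cosh s := by
    intro s
    have h1 : (2 * Real.sinh s) ^ 2 + 4 = (2 * Real.cosh s) ^ 2 := by
      have := Real.cosh_sq s
      nlinarith
    rw [h1, Real.sqrt_sq (by have := Real.cosh_pos s; linarith)]
  have h1 : HasDerivAt (fun s => G s - (H s - Real.log (2 * Real.cosh s)))
      (G' t - (H' t - (2 * Real.sinh t / (2 * Real.cosh t)))) t := (hG1 t h0).sub (g1 t h0)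
  have h2 : HasDerivAt (fun s => Real.log (ρ (2 * Real.sinh s)))
      (G' t - (H' t - (2 * Real.sinh t / (2 * Real.cosh t)))) t := by
    refine h1.congr_of_eventuallyEq ?_
    filter_upwards [Ioi_mem_nhds h0] with s hs
    have hs0 : 0 < s := hs
    have hx := sinh_pos' hs0
    have hc : 0 < 2 * Real.cosh s := by have := Real.cosh_pos s; positivity
    simp only [hρ]
    rw [hcosh, Real.log_div (mul_pos (hBpos _ hx) hc).ne' (hApos _ hx).ne',
      Real.log_mul (hBpos _ hx).ne' hc.ne', hGe s hs0, hHe s hs0]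
    ring
  have hxt : 0 < 2 * Real.sinh t := hx
  have hdiff : DifferentiableAt ℝ ρ (2 * Real.sinh t) := by
    have d1 : DifferentiableAt ℝ B (2 * Real.sinh t) :=
      (hB.differentiableOn (by norm_num)).differentiableAt (isOpen_Ioi.mem_nhds hxt)
    have d2 : DifferentiableAt ℝ A (2 * Real.sinh t) :=
      (hA.differentiableOn (by norm_num)).differentiableAt (isOpen_Ioi.mem_nhds hxt)
    have d3 : DifferentiableAt ℝ (fun u : ℝ => Real.sqrt (u ^ 2 + 4)) (2 * Real.sinh t) := by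
      refine DifferentiableAt.sqrt (by fun_prop) ?_
      positivity
    exact (d1.mul d3).div d2 (hApos _ hxt).ne'
  have hρpos : 0 < ρ (2 * Real.sinh t) := by
    simp only [hρ]
    have := hBpos _ hxt
    have := hApos _ hxt
    positivity
  have h3 : HasDerivAt (fun s => Real.log (ρ (2 * Real.sinh s)))
      (deriv ρ (2 * Real.sinh t) * (2 * Real.cosh t) / ρ (2 * Real.sinh t)) t := by
    have h7 : HasDerivAt (ρ ∘ fun s => 2 * Real.sinh s) (deriv ρ (2 * Real.sinh t) * (2 * Real.cosh t)) t :=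
      HasDerivAt.comp (h₂ := ρ) t hdiff.hasDerivAt ((Real.hasDerivAt_sinh t).const_mul 2)
    exact h7.log hρpos.ne'
  have h4 := h2.unique h3
  have h5 : G' t - (H' t - (2 * Real.sinh t / (2 * Real.cosh t))) = 0 := by
    rw [← heq]; ring
  rw [h5] at h4
  have h6 : deriv ρ (2 * Real.sinh t) * (2 * Real.cosh t) = 0 := by
    have h7 := h4.symm
    rw [div_eq_zero_iff] at h7
    exact h7.resolve_right hρpos.ne'
  exact (mul_eq_zero.1 h6).resolve_right (cosh_ne t)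

/-- the same amplitude -/
theorem joint_UV_same {A : ℝ → ℝ} (hA : ContDiffOn ℝ 2 A (Set.Ioi 0)) (hApos : ∀ x, 0 < x → 0 < A x) :
    ∀ᵐ x : ℝ, 0 < x → {p : ℕ | p.Prime ∧ (roughPart p ⌊A x * lU x p⌋₊).Prime ∧
        (roughPart p ⌊A x * lV x p⌋₊).Prime}.Finite := by
  filter_upwards [joint_UV hA hApos hA hApos] with x hx h0
  refine hx h0 ?_
  have e : (fun u => A u * Real.sqrt (u ^ 2 + 4) / A u) =ᶠ[𝓝 x] fun u => Real.sqrt (u ^ 2 + 4) := by
    filter_upwards [Ioi_mem_nhds h0] with u hu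
    have := (hApos u hu).ne'
    field_simp
  rw [e.deriv_eq]
  have h1 : HasDerivAt (fun u : ℝ => u ^ 2 + 4) (2 * x) x := by
    simpa using (hasDerivAt_pow 2 x).add_const 4
  have h2 := (h1.sqrt (by positivity)).deriv
  rw [h2]
  have h3 : 0 < Real.sqrt (x ^ 2 + 4) := Real.sqrt_pos.2 (by positivity)
  positivity

/-- the amplitudes of the Pell equation -/
theorem joint_UV_div {A : ℝ → ℝ} (hA : ContDiffOn ℝ 2 A (Set.Ioi 0)) (hApos : ∀ x, 0 < x → 0 < A x) :
    ∀ᵐ x : ℝ, 0 < x → {p : ℕ | p.Prime ∧ (roughPart p ⌊A x * lU x p⌋₊).Prime ∧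
        (roughPart p ⌊A x / x * lV x p⌋₊).Prime}.Finite := by
  have hB : ContDiffOn ℝ 2 (fun x => A x / x) (Set.Ioi 0) :=
    hA.div contDiffOn_id fun x hx => ne_of_gt hx
  have hBpos : ∀ x, 0 < x → 0 < A x / x := fun x hx => div_pos (hApos x hx) hx
  filter_upwards [joint_UV hA hApos hB hBpos] with x hx h0
  refine hx h0 ?_
  have e : (fun u => A u / u * Real.sqrt (u ^ 2 + 4) / A u) =ᶠ[𝓝 x] fun u => Real.sqrt (u ^ 2 + 4) / u := by
    filter_upwards [Ioi_mem_nhds h0] with u hu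
    have h1 := (hApos u hu).ne'
    have h2 : u ≠ 0 := ne_of_gt hu
    field_simp
  rw [e.deriv_eq]
  have h1 : HasDerivAt (fun u : ℝ => u ^ 2 + 4) (2 * x) x := by
    simpa using (hasDerivAt_pow 2 x).add_const 4
  have hs := Real.sq_sqrt (show (0 : ℝ) ≤ x ^ 2 + 4 by positivity)
  have h3 : 0 < Real.sqrt (x ^ 2 + 4) := Real.sqrt_pos.2 (by positivity)
  have h2 := ((h1.sqrt (by positivity)).div (hasDerivAt_id x) h0.ne').deriv
  have e2 : deriv (fun u : ℝ => Real.sqrt (u ^ 2 + 4) / u) x =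
      (2 * x / (2 * Real.sqrt (x ^ 2 + 4)) * id x - Real.sqrt (x ^ 2 + 4) * 1) / id x ^ 2 := h2
  rw [e2]
  simp only [id]
  have h5 : 2 * x / (2 * Real.sqrt (x ^ 2 + 4)) * x - Real.sqrt (x ^ 2 + 4) * 1 =
      -4 / Real.sqrt (x ^ 2 + 4) := by
    field_simp
    nlinarith
  rw [h5]
  have : -4 / Real.sqrt (x ^ 2 + 4) / x ^ 2 < 0 := by
    apply div_neg_of_neg_of_pos _ (by positivity)
    exact div_neg_of_neg_of_pos (by norm_num) h3
  exact this.ne

end Pool.Agent.Q43.CV
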