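import Mathlib
import Pool.Agent.Q43.CV.Hyp
import Pool.Agent.Q43.UN.Fin
import Pool.Agent.H447R2.ML.Spec

set_option autoImplicit false

/-!
# The negative Pell equation with a real parameter
-/

namespace Pool.Agent.Q43.CV

open Finset Filter Topology MeasureTheory
open Pool.Agent.W66C
open Pool.Agent.TH888.R (wt wt_nonneg wt_le_one Pt)
open Pool.Agent.H305R2 (roughPart NN ff)
open Pool.Agent.Q43.UN (UPt)

/-- first coordinates -/
noncomputable def PX (y : ℝ) : ℕ → ℝ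
  | 0 => 1
  | 1 => y
  | (n + 2) => 2 * y * PX y (n + 1) + PX y n

/-- second coordinates -/
noncomputable def PY (y : ℝ) : ℕ → ℝ
  | 0 => 0
  | 1 => 1
  | (n + 2) => 2 * y * PY y (n + 1) + PY y n

lemma PX_eq (y : ℝ) (n : ℕ) : lV (2 * y) n = 2 * PX y n := by
  induction n using Nat.twoStepInduction with
  | zero => simp [lV, PX]
  | one => simp [lV, PX]
  | more n h1 h2 => rw [lV, h1, h2, PX]; ring

lemma PY_eq (y : ℝ) (n : ℕ) : lU (2 * y) n = PY y n := by
  induction n using Nat.twoStepInduction with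
  | zero => rfl
  | one => rfl
  | more n h1 h2 => rw [lU, h1, h2, PY]

lemma pell (y : ℝ) (n : ℕ) : PX y n + PY y n * Real.sqrt (y ^ 2 + 1) = (y + Real.sqrt (y ^ 2 + 1)) ^ n := by
  have hs := Real.sq_sqrt (show (0 : ℝ) ≤ y ^ 2 + 1 by positivity)
  set s := Real.sqrt (y ^ 2 + 1)
  induction n using Nat.twoStepInduction with
  | zero => simp [PX, PY]
  | one => simp [PX, PY]
  | more n h1 h2 =>
    rw [PX, PY]
    have e1 : (y + s) ^ 2 = 2 * y * (y + s) + 1 := by nlinarith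
    calc 2 * y * PX y (n + 1) + PX y n + (2 * y * PY y (n + 1) + PY y n) * s =
          2 * y * (PX y (n + 1) + PY y (n + 1) * s) + (PX y n + PY y n * s) := by ring
      _ = 2 * y * (y + s) ^ (n + 1) + (y + s) ^ n := by rw [h1, h2]
      _ = (y + s) ^ n * (2 * y * (y + s) + 1) := by ring
      _ = _ := by rw [← e1]; ring

lemma pell_step (y : ℝ) (n : ℕ) : PX y (n + 1) = y * PX y n + (y ^ 2 + 1) * PY y n ∧
    PY y (n + 1) = PX y n + y * PY y n := by
  induction n using Nat.twoStepInduction with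
  | zero => simp [PX, PY]
  | one =>
    simp only [PX, PY]
    constructor <;> ring
  | more n g1 g2 =>
    obtain ⟨a1, b1⟩ := g1
    have p2 : PX y (n + 2) = 2 * y * PX y (n + 1) + PX y n := rfl
    have q2 : PY y (n + 2) = 2 * y * PY y (n + 1) + PY y n := rfl
    have p3 : PX y (n + 2 + 1) = 2 * y * PX y (n + 2) + PX y (n + 1) := rfl
    have q3 : PY y (n + 2 + 1) = 2 * y * PY y (n + 2) + PY y (n + 1) := rfl
    constructor
    · rw [p3, p2, q2, a1, b1]; ring
    · rw [q3, p2, q2, a1, b1]; ring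

lemma pell_norm (y : ℝ) (n : ℕ) : PX y n ^ 2 - (y ^ 2 + 1) * PY y n ^ 2 = (-1) ^ n := by
  induction n with
  | zero => simp [PX, PY]
  | succ n ih =>
    obtain ⟨a, b⟩ := pell_step y n
    rw [a, b, pow_succ (-1 : ℝ) n, ← ih]
    ring

lemma PX_one (n : ℕ) : 2 * PX 1 n = (Pool.Agent.H447R2.ML.V 2 n : ℝ) := by
  induction n using Nat.twoStepInduction with
  | zero => simp [PX, Pool.Agent.H447R2.ML.V]
  | one => simp [PX, Pool.Agent.H447R2.ML.V]
  | more n h1 h2 =>
    rw [PX, Pool.Agent.H447R2.ML.V_add_two]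
    push_cast
    rw [← h1, ← h2]
    ring

lemma PY_one (n : ℕ) : PY 1 n = (Pool.Agent.H447R2.ML.U 2 n : ℝ) := by
  induction n using Nat.twoStepInduction with
  | zero => simp [PY, Pool.Agent.H447R2.ML.U]
  | one => simp [PY, Pool.Agent.H447R2.ML.U]
  | more n h1 h2 =>
    rw [PY, Pool.Agent.H447R2.ML.U_add_two, h1, h2]
    push_cast
    ring

/-- the integer first coordinates -/
def px : ℕ → ℕ
  | 0 => 1
  | 1 => 1
  | (n + 2) => 2 * px (n + 1) + px n

lemma px_odd (n : ℕ) : ¬ 2 ∣ px n := by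
  induction n using Nat.twoStepInduction with
  | zero => decide
  | one => decide
  | more n h1 h2 =>
    rw [px]
    omega

lemma V_px (n : ℕ) : Pool.Agent.H447R2.ML.V 2 n = 2 * px n := by
  induction n using Nat.twoStepInduction with
  | zero => rfl
  | one => rfl
  | more n h1 h2 =>
    rw [Pool.Agent.H447R2.ML.V_add_two, h1, h2, px]
    ring

lemma PX_px (n : ℕ) : PX 1 n = (px n : ℝ) := by
  have h1 := PX_one n
  rw [V_px] at h1
  push_cast at h1
  linarith

lemma rough_X {p : ℕ} (hp : p.Prime) (h5 : 5 ≤ p) : roughPart p ⌊PX 1 p⌋₊ = px p := by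
  rw [PX_px, Nat.floor_natCast]
  refine Pool.Agent.H447R2.ML.roughPart_eq_self ?_ fun q hq h => ?_
  · intro h0
    exact px_odd p (by rw [h0]; exact dvd_zero _)
  · have hd : ¬ p ∣ 2 := fun h' => by
      have := Nat.le_of_dvd two_pos h'
      omega
    have hq2 : ¬ q ∣ 2 := by
      intro h'
      have h3 : q = 2 := (Nat.prime_dvd_prime_iff_eq hq Nat.prime_two).1 h'
      rw [h3] at h
      exact px_odd p h
    refine Pool.Agent.H447R2.ML.lt_of_dvd_V 2 hp h5 hd hq hq2 ?_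
    rw [V_px]
    exact h.mul_left _

lemma rough_Y {p : ℕ} (hp : p.Prime) (h5 : 5 ≤ p) :
    roughPart p ⌊PY 1 p⌋₊ = Pool.Agent.H447R2.ML.U 2 p := by
  refine Pool.Agent.H447R2.ML.rough_U 2 two_pos hp h5 ?_ (PY_one p)
  intro h
  have h8 : p ∣ 2 ^ 3 := by simpa using h
  have h2 := (Nat.prime_dvd_prime_iff_eq hp Nat.prime_two).1 (hp.dvd_of_dvd_pow h8)
  omega

/-- transfer from `x = 2 y` -/
lemma ae_two {Q : ℝ → Prop} (h : ∀ᵐ x : ℝ, Q x) : ∀ᵐ y : ℝ, Q (2 * y) := by
  rw [ae_iff] at h ⊢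
  have h1 : volume ((fun x : ℝ => x / 2) '' {x : ℝ | ¬ Q x}) = 0 :=
    addHaar_image_eq_zero_of_differentiableOn_of_addHaar_eq_zero volume
      (Differentiable.differentiableOn (by fun_prop)) h
  refine measure_mono_null ?_ h1
  intro y hy
  exact ⟨2 * y, hy, by simp⟩

lemma comp_half {A : ℝ → ℝ} (hA : ContDiffOn ℝ 2 A (Set.Ioi 0)) :
    ContDiffOn ℝ 2 (fun x => A (x / 2)) (Set.Ioi 0) := by
  refine hA.comp (contDiff_id.div_const 2).contDiffOn fun x hx => ?_
  have hx' : (0 : ℝ) < x := hx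
  show 0 < x / 2
  linarith

variable {A : ℝ → ℝ}

lemma eX {y : ℝ} (hy : 0 < y) (n : ℕ) :
    A (2 * y / 2) / (2 * y) * lV (2 * y) n = A y * (PX y n / y) := by
  rw [PX_eq, mul_div_cancel_left₀ y two_ne_zero]
  field_simp

lemma eY (y : ℝ) (n : ℕ) : A (2 * y / 2) * lU (2 * y) n = A y * PY y n := by
  rw [PY_eq, mul_div_cancel_left₀ y two_ne_zero]

section

variable (hA : ContDiffOn ℝ 2 A (Set.Ioi 0)) (hApos : ∀ x, 0 < x → 0 < A x)
include hA hApos

lemma quot_diff : ContDiffOn ℝ 2 (fun x => A (x / 2) / x) (Set.Ioi 0) :=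
  (comp_half hA).div contDiffOn_id fun _ hx => ne_of_gt hx

lemma quot_pos : ∀ x, 0 < x → 0 < A (x / 2) / x := fun x hx => div_pos (hApos _ (by linarith)) hx

/-- both coordinates -/
theorem pell_joint : ∀ᵐ y : ℝ, 0 < y → {p : ℕ | p.Prime ∧ (roughPart p ⌊A y * (PX y p / y)⌋₊).Prime ∧
    (roughPart p ⌊A y * PY y p⌋₊).Prime}.Finite := by
  filter_upwards [ae_two (joint_UV_div (A := fun x => A (x / 2)) (comp_half hA)
    (fun x hx => hApos _ (by linarith)))] with y hy h0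
  have h1 := hy (by linarith)
  simp only [eX h0, eY] at h1
  refine h1.subset ?_
  rintro p ⟨g1, g2, g3⟩
  exact ⟨g1, g3, g2⟩

/-- repulsion, first coordinate -/
theorem pell_rep_X (R : Set (ℕ × ℕ)) (hR : ∀ x ∈ R, x.1.Prime ∧ x.2.Prime ∧ x.1 < x.2)
    (hs : Summable fun x : R => wt x.1.1 * wt x.1.2) :
    ∀ᵐ y : ℝ, 0 < y → Rep (fun p => ⌊A y * (PX y p / y)⌋₊) R ∧ Gaps (fun p => ⌊A y * (PX y p / y)⌋₊) := by
  filter_upwards [ae_two (rep_V (A := fun x => A (x / 2) / x) (quot_diff hA hApos) (quot_pos hA hApos)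
    R hR hs)] with y hy h0
  have h1 := hy (by linarith)
  simp only [eX h0] at h1
  exact h1

/-- repulsion, second coordinate -/
theorem pell_rep_Y (R : Set (ℕ × ℕ)) (hR : ∀ x ∈ R, x.1.Prime ∧ x.2.Prime ∧ x.1 < x.2)
    (hs : Summable fun x : R => wt x.1.1 * wt x.1.2) :
    ∀ᵐ y : ℝ, 0 < y → Rep (fun p => ⌊A y * PY y p⌋₊) R ∧ Gaps (fun p => ⌊A y * PY y p⌋₊) := by
  filter_upwards [ae_two (rep_U (A := fun x => A (x / 2)) (comp_half hA)
    (fun x hx => hApos _ (by linarith)) R hR hs)] with y hy h0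
  have h1 := hy (by linarith)
  simp only [eY] at h1
  exact h1

omit hA hApos in
lemma log_eq (y : ℝ) : (2 * y + Real.sqrt ((2 * y) ^ 2 + 4)) / 2 = y + Real.sqrt (y ^ 2 + 1) := by
  have e : (2 * y) ^ 2 + 4 = 2 ^ 2 * (y ^ 2 + 1) := by ring
  rw [e, Real.sqrt_mul (by norm_num), Real.sqrt_sq (by norm_num)]
  ring

/-- the law -/
theorem pell_pt (S : Set ℕ) : ∀ᵐ y : ℝ, 0 < y →
    Pt (fun p => ⌊A y * (PX y p / y)⌋₊)
      (Real.exp Real.eulerMascheroniConstant / Real.log (y + Real.sqrt (y ^ 2 + 1))) S ∧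
    Pt (fun p => ⌊A y * PY y p⌋₊)
      (Real.exp Real.eulerMascheroniConstant / Real.log (y + Real.sqrt (y ^ 2 + 1))) S := by
  filter_upwards [ae_two (Pool.Agent.TH888.C.pt_V_curve S (A := fun x => A (x / 2) / x)
      (quot_diff hA hApos) (quot_pos hA hApos)),
    ae_two (Pool.Agent.TH888.C.pt_U_curve S (A := fun x => A (x / 2)) (comp_half hA)
      (fun x hx => hApos _ (by linarith)))] with y g1 g2 h0
  have h1 := g1 (by linarith)
  have h2 := g2 (by linarith)
  simp only [eX h0, log_eq] at h1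
  simp only [eY, log_eq] at h2
  exact ⟨h1, h2⟩

/-- the law in progressions -/
theorem pell_upt : ∀ᵐ y : ℝ, 0 < y →
    UPt (fun p => ⌊A y * (PX y p / y)⌋₊)
      (Real.exp Real.eulerMascheroniConstant / Real.log (y + Real.sqrt (y ^ 2 + 1))) ∧
    UPt (fun p => ⌊A y * PY y p⌋₊)
      (Real.exp Real.eulerMascheroniConstant / Real.log (y + Real.sqrt (y ^ 2 + 1))) := by
  filter_upwards [ae_two (Pool.Agent.Q43.UN.upt_V_curve (A := fun x => A (x / 2) / x)
      (quot_diff hA hApos) (quot_pos hA hApos)),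
    ae_two (Pool.Agent.Q43.UN.upt_U_curve (A := fun x => A (x / 2)) (comp_half hA)
      (fun x hx => hApos _ (by linarith)))] with y g1 g2 h0
  have h1 := g1 (by linarith)
  have h2 := g2 (by linarith)
  simp only [eX h0, log_eq] at h1
  simp only [eY, log_eq] at h2
  exact ⟨h1, h2⟩

end

end Pool.Agent.Q43.CV
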