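import Mathlib
import Pool.Agent.Q43.CV.Fam

set_option autoImplicit false

/-!
# Repulsion and joint primes: the sequences `A x * (x ^ p - c ^ p)`
-/

namespace Pool.Agent.Q43.CV

open Finset Filter Topology MeasureTheory
open Pool.Agent.W66C
open Pool.Agent.TH888.R (wt wt_nonneg wt_le_one)
open Pool.Agent.H305R2 (roughPart NN ff)
open Pool.Agent.W66X (ae_of_exp')

/-- the phases -/
lemma hval_pow {c c0 : ℝ} (hc0 : ∀ t, c0 < t → max 1 |c| < Real.exp t) {A H : ℝ → ℝ}
    (hApos : ∀ t, c0 < t → 0 < A (Real.exp t))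
    (hHe : ∀ t, c0 < t → H t = Real.log (A (Real.exp t))) :
    ∀ t, c0 < t → ∀ᶠ p : ℕ in atTop, p.Prime → 0 < A (Real.exp t) * ((Real.exp t) ^ p - c ^ p) ∧
      Real.log (A (Real.exp t) * ((Real.exp t) ^ p - c ^ p)) =
        yy 1 (Real.log |c|) (-(SignType.sign c : ℝ)) H p t := by
  intro t ht
  set s : ℝ := -(SignType.sign c : ℝ) with hs
  filter_upwards [eventually_ge_atTop 3] with p hp hpp
  have hodd : Odd p := hpp.odd_of_ne_two (by omega)
  have h1 := hc0 t ht
  have h2 : |c| < Real.exp t := (le_max_right _ _).trans_lt h1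
  have h3 : |c ^ p| < (Real.exp t) ^ p := by
    rw [abs_pow]
    exact pow_lt_pow_left₀ h2 (abs_nonneg _) (by omega)
  have h4 : 0 < (Real.exp t) ^ p - c ^ p := by
    have := le_abs_self (c ^ p)
    linarith
  have hE : 0 < Real.exp t ^ p := by positivity
  have hAp := hApos _ ht
  refine ⟨mul_pos hAp h4, ?_⟩
  rw [Real.log_mul hAp.ne' h4.ne']
  have e1 : s * Real.exp (-(p * (1 * t - Real.log |c|))) = -(c ^ p / (Real.exp t) ^ p) := by
    rcases (abs_nonneg c).eq_or_lt with h | h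
    · have hc : c = 0 := abs_eq_zero.1 h.symm
      have hp0 : p ≠ 0 := by omega
      rw [hs, hc]
      simp [hp0]
    · have e2 : Real.exp (-(p * (1 * t - Real.log |c|))) = |c| ^ p / (Real.exp t) ^ p := by
        have e3 : -((p : ℝ) * (1 * t - Real.log |c|)) = (p : ℝ) * Real.log |c| - p * t := by ring
        rw [e3, Real.exp_sub, Real.exp_nat_mul, Real.exp_nat_mul, Real.exp_log h]
      rw [e2]
      have e4 : s * |c| ^ p = -c ^ p := by
        rw [hs]
        rcases lt_or_gt_of_ne (abs_pos.1 h) with h5 | h5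
        · rw [sign_neg h5, abs_of_neg h5, hodd.neg_pow]
          simp
        · rw [sign_pos h5, abs_of_pos h5]
          simp
      rw [← mul_div_assoc, e4, neg_div]
  have e5 : (Real.exp t) ^ p - c ^ p = (Real.exp t) ^ p * (1 + -(c ^ p / (Real.exp t) ^ p)) := by
    field_simp
    ring
  have h6 : 0 < 1 + -(c ^ p / (Real.exp t) ^ p) := by
    have : c ^ p / (Real.exp t) ^ p < 1 := by
      rw [div_lt_one hE]
      linarith
    linarith
  unfold yy
  rw [e1, e5, Real.log_mul hE.ne' h6.ne', ← Real.exp_nat_mul, Real.log_exp, hHe t ht]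
  ring

lemma sgn_le (c : ℝ) : |(-(SignType.sign c : ℝ))| ≤ 1 := by
  rw [abs_neg]
  rcases lt_trichotomy c 0 with h | h | h
  · rw [sign_neg h]; simp
  · rw [h]; simp
  · rw [sign_pos h]; simp

lemma log_abs_le {c M : ℝ} (hM : 1 ≤ M) (hc : |c| ≤ M) : Real.log |c| ≤ 1 * Real.log M := by
  rw [one_mul]
  rcases (abs_nonneg c).eq_or_lt with h | h
  · rw [← h, Real.log_zero]
    exact Real.log_nonneg hM
  · exact Real.log_le_log h hc

/-- **Repulsion.** -/
theorem rep_pow {c M : ℝ} (hM : 1 ≤ M) (hc : |c| ≤ M) {A : ℝ → ℝ} (hA : ContDiffOn ℝ 2 A (Set.Ioi M))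
    (hApos : ∀ x, M < x → 0 < A x)
    (R : Set (ℕ × ℕ)) (hR : ∀ x ∈ R, x.1.Prime ∧ x.2.Prime ∧ x.1 < x.2)
    (hs : Summable fun x : R => wt x.1.1 * wt x.1.2) :
    ∀ᵐ x : ℝ, M < x → Rep (fun p => ⌊A x * (x ^ p - c ^ p)⌋₊) R ∧
      Gaps (fun p => ⌊A x * (x ^ p - c ^ p)⌋₊) := by
  have hM0 : (0 : ℝ) < M := by linarith
  have hc0 : 0 ≤ Real.log M := Real.log_nonneg hM
  have hexp : ∀ t, Real.log M < t → M < Real.exp t := fun t ht => (Real.log_lt_iff_lt_exp hM0).1 ht
  have hexp' : ∀ t, Real.log M < t → max 1 |c| < Real.exp t := fun t ht =>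
    (max_le hM hc).trans_lt (hexp t ht)
  obtain ⟨H, H', H'', hHm, hHe, hH1, hH2, hH3⟩ := amp (c0 := Real.log M) hA hApos (g := Real.exp)
    (g' := Real.exp) (g'' := Real.exp) Real.measurable_exp Real.hasDerivAt_exp Real.hasDerivAt_exp
    Real.continuous_exp hexp
  have hfam := fam_cur (m1 := 1) (m0 := Real.log |c|) (c0 := Real.log M) one_pos (sgn_le c)
    (log_abs_le hM hc) hH1 hH2 hH3
  have h := ae_of_exp' (P := fun x : ℝ => M < x → Rep (fun p => ⌊A x * (x ^ p - c ^ p)⌋₊) R ∧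
      Gaps (fun p => ⌊A x * (x ^ p - c ^ p)⌋₊)) (by
    filter_upwards [rep_all hc0 (fun p => measurable_yy 1 (Real.log |c|) _ hHm p) hfam
      (val := fun p t => A (Real.exp t) * ((Real.exp t) ^ p - c ^ p))
      (hval_pow hexp' (fun t ht => hApos _ (hexp t ht)) hHe) R hR hs] with t ht hx
    exact ht ((Real.log_lt_iff_lt_exp hM0).2 hx))
  filter_upwards [h] with x hx h1
  exact hx (by linarith) h1

/-- **Joint primes for two pairs.** -/
theorem joint_pow {c d M : ℝ} (hM : 1 ≤ M) (hc : |c| ≤ M) (hd : |d| ≤ M) {A B : ℝ → ℝ}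
    (hA : ContDiffOn ℝ 2 A (Set.Ioi M)) (hApos : ∀ x, M < x → 0 < A x)
    (hB : ContDiffOn ℝ 2 B (Set.Ioi M)) (hBpos : ∀ x, M < x → 0 < B x) :
    ∀ᵐ x : ℝ, M < x → deriv (fun u => B u / A u) x ≠ 0 →
      {p : ℕ | p.Prime ∧ (roughPart p ⌊A x * (x ^ p - c ^ p)⌋₊).Prime ∧
        (roughPart p ⌊B x * (x ^ p - d ^ p)⌋₊).Prime}.Finite := by
  have hM0 : (0 : ℝ) < M := by linarith
  have hc0 : 0 ≤ Real.log M := Real.log_nonneg hM
  have hexp : ∀ t, Real.log M < t → M < Real.exp t := fun t ht => (Real.log_lt_iff_lt_exp hM0).1 ht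
  have hexpc : ∀ t, Real.log M < t → max 1 |c| < Real.exp t := fun t ht =>
    (max_le hM hc).trans_lt (hexp t ht)
  have hexpd : ∀ t, Real.log M < t → max 1 |d| < Real.exp t := fun t ht =>
    (max_le hM hd).trans_lt (hexp t ht)
  obtain ⟨H, H', H'', hHm, hHe, hH1, hH2, hH3⟩ := amp (c0 := Real.log M) hA hApos (g := Real.exp)
    (g' := Real.exp) (g'' := Real.exp) Real.measurable_exp Real.hasDerivAt_exp Real.hasDerivAt_exp
    Real.continuous_exp hexp
  obtain ⟨G, G', G'', hGm, hGe, hG1, hG2, hG3⟩ := amp (c0 := Real.log M) hB hBpos (g := Real.exp)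
    (g' := Real.exp) (g'' := Real.exp) Real.measurable_exp Real.hasDerivAt_exp Real.hasDerivAt_exp
    Real.continuous_exp hexp
  have h := ae_of_exp' (P := fun x : ℝ => M < x → deriv (fun u => B u / A u) x ≠ 0 →
      {p : ℕ | p.Prime ∧ (roughPart p ⌊A x * (x ^ p - c ^ p)⌋₊).Prime ∧
        (roughPart p ⌊B x * (x ^ p - d ^ p)⌋₊).Prime}.Finite) (by
    filter_upwards [joint_val hc0 one_pos (sgn_le c) (log_abs_le hM hc) one_pos (sgn_le d) (log_abs_le hM hd)
      hHm hGm hH1 hH2 hH3 hG1 hG2 hG3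
      (val1 := fun p t => A (Real.exp t) * ((Real.exp t) ^ p - c ^ p))
      (val2 := fun p t => B (Real.exp t) * ((Real.exp t) ^ p - d ^ p))
      (hval_pow hexpc (fun t ht => hApos _ (hexp t ht)) hHe)
      (hval_pow hexpd (fun t ht => hBpos _ (hexp t ht)) hGe)] with t ht hx hne
    have h0 : Real.log M < t := (Real.log_lt_iff_lt_exp hM0).2 hx
    refine ht h0 fun heq => hne ?_
    set ρ : ℝ → ℝ := fun u => B u / A u with hρ
    have h2 : HasDerivAt (fun s => Real.log (ρ (Real.exp s))) (G' t - H' t) t := by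
      refine ((hG1 t h0).sub (hH1 t h0)).congr_of_eventuallyEq ?_
      filter_upwards [Ioi_mem_nhds h0] with s hs
      have hx := hexp s hs
      simp only [hρ, Pi.sub_apply]
      rw [Real.log_div (hBpos _ hx).ne' (hApos _ hx).ne', hGe s hs, hHe s hs]
    have hdiff : DifferentiableAt ℝ ρ (Real.exp t) := by
      have d1 : DifferentiableAt ℝ B (Real.exp t) :=
        (hB.differentiableOn (by norm_num)).differentiableAt (isOpen_Ioi.mem_nhds hx)
      have d2 : DifferentiableAt ℝ A (Real.exp t) :=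
        (hA.differentiableOn (by norm_num)).differentiableAt (isOpen_Ioi.mem_nhds hx)
      exact d1.div d2 (hApos _ hx).ne'
    have hρpos : 0 < ρ (Real.exp t) := div_pos (hBpos _ hx) (hApos _ hx)
    have h3 : HasDerivAt (fun s => Real.log (ρ (Real.exp s)))
        (deriv ρ (Real.exp t) * Real.exp t / ρ (Real.exp t)) t := by
      have h7 : HasDerivAt (ρ ∘ Real.exp) (deriv ρ (Real.exp t) * Real.exp t) t :=
        HasDerivAt.comp (h₂ := ρ) t hdiff.hasDerivAt (Real.hasDerivAt_exp t)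
      exact h7.log hρpos.ne'
    have h4 := h2.unique h3
    rw [heq, sub_self] at h4
    have h6 : deriv ρ (Real.exp t) * Real.exp t = 0 := by
      have h7 := h4.symm
      rw [div_eq_zero_iff] at h7
      exact h7.resolve_right hρpos.ne'
    exact (mul_eq_zero.1 h6).resolve_right (Real.exp_pos t).ne')
  filter_upwards [h] with x hx h1
  exact hx (by linarith) h1

end Pool.Agent.Q43.CV
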